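import Pool.Agent.Results.MP_154526_nt.MultiplicativeValues

/-!
# The arguments with exceptional relations, for patterns in one variable
-/

set_option autoImplicit false

namespace Pool.Agent.L7h69.MZ

open Finset
open Pool.Agent.N760.SC (BadTuples count_scales)
open Pool.Agent.Results.MP_154526_nt.ExceptionalTuples
  (mzv Letter index AdmissiblePattern IsConsequence exceptional)
open Pool.Agent.Results.MP_154526_nt.MultiplicativeValues (OnlyConsequences only_mono exceptional_eq pow_bound)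

/-- the bad arguments for one family of patterns are a thin set -/
lemma thin {r t : ℕ} (w : Fin r → List (Letter 1)) (hw : ∀ i, AdmissiblePattern (w i)) (x : Fin t → ℂ) (D : ℕ) (C : ℝ)
    (ε : ℝ) (hε : 0 < ε) : ∃ C₀ : ℝ, ∀ X : ℕ, 1 ≤ X →
      ({s : ℕ | 1 ≤ s ∧ s ≤ X ∧ ¬ OnlyConsequences w x D (C ^ s) (fun _ => s)}.ncard : ℝ) ≤ C₀ * (X : ℝ) ^ (0 + ε) := by
  obtain ⟨K, hK⟩ := Pool.Agent.Results.MP_154526_nt.ExceptionalTuples.result t w hw D (2 * 1)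
  obtain ⟨N₁, hN₁⟩ := hK ((max |C| 1) ^ 2) x
  obtain ⟨C₀, hC₀, hcount⟩ := count_scales le_rfl 1 (fun T s => ¬ OnlyConsequences w x D (C ^ T) s)
    (fun N s => ¬ OnlyConsequences w x D (((max |C| 1) ^ 2) ^ N) s)
    (fun N T s h1 h2 h3 h4 => h3 (only_mono w x D (pow_bound C h2.le) s h4))
    ⟨K, N₁, fun N hN => by
      rw [exceptional_eq]
      exact hN₁ N hN⟩ ε hε
  refine ⟨C₀, fun X hX => ?_⟩
  have h := hcount X hX
  have hfin : {s : Fin 1 → ℕ | s ∈ BadTuples 1 (fun T s => ¬ OnlyConsequences w x D (C ^ T) s) ∧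
      ∀ i, s i ≤ X}.Finite := by
    refine (Set.Finite.pi' (t := fun _ : Fin 1 => Set.Iic X) fun _ => Set.finite_Iic _).subset ?_
    intro s hs j
    exact hs.2 j
  have hmaps : ∀ s ∈ {s : ℕ | 1 ≤ s ∧ s ≤ X ∧ ¬ OnlyConsequences w x D (C ^ s) (fun _ => s)},
      (fun _ : Fin 1 => s) ∈ {s : Fin 1 → ℕ | s ∈ BadTuples 1 (fun T s => ¬ OnlyConsequences w x D (C ^ T) s) ∧
        ∀ i, s i ≤ X} := by
    rintro s ⟨h1, h2, h3⟩
    exact ⟨⟨s, h1, fun _ => ⟨le_rfl, (one_mul s).ge⟩, h3⟩, fun _ => h2⟩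
  have h4 := Set.ncard_le_ncard_of_injOn (fun s : ℕ => (fun _ : Fin 1 => s)) hmaps
    (fun s _ s' _ hss => congrFun hss 0) hfin
  refine le_trans (Nat.cast_le.2 h4) (h.trans (le_of_eq ?_))
  congr 2
  push_cast
  ring

open Classical in
/-- the same with a finite set -/
lemma thin_card {r t : ℕ} (w : Fin r → List (Letter 1)) (hw : ∀ i, AdmissiblePattern (w i)) (x : Fin t → ℂ) (D : ℕ)
    (C : ℝ) (ε : ℝ) (hε : 0 < ε) : ∃ C₀ : ℝ, ∀ X : ℕ, 1 ≤ X →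
      (((Ioc 0 X).filter (fun s => s ∈ {s : ℕ | ¬ OnlyConsequences w x D (C ^ s) (fun _ => s)})).card : ℝ) ≤
        C₀ * (X : ℝ) ^ (0 + ε) := by
  obtain ⟨C₀, h⟩ := thin w hw x D C ε hε
  refine ⟨C₀, fun X hX => le_trans (le_of_eq ?_) (h X hX)⟩
  rw [← Set.ncard_coe_finset]
  congr 2
  ext s
  simp only [coe_filter, mem_Ioc, Set.mem_ofPred_eq]
  constructor
  · rintro ⟨⟨h1, h2⟩, h3⟩
    exact ⟨h1, h2, h3⟩
  · rintro ⟨h1, h2, h3⟩
    exact ⟨⟨h1, h2⟩, h3⟩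

/-- the data of a problem: the patterns, the constants, the degree and `C` -/
abbrev Data (Z : Set ℂ) : Type := (Σ r : ℕ, Fin r → List (Letter 1)) × (Σ t : ℕ, Fin t → Z) × ℕ × ℕ

/-- `s` is good for the data -/
def GoodFor (Z : Set ℂ) (q : Data Z) (s : ℕ) : Prop :=
  OnlyConsequences q.1.2 (fun i => ((q.2.1.2 i : Z) : ℂ)) q.2.2.1 ((q.2.2.2 : ℝ) ^ s) (fun _ : Fin 1 => s)

lemma good_of (Z : Set ℂ) {r t : ℕ} (w : Fin r → List (Letter 1)) (x : Fin t → ℂ) (hx : ∀ i, x i ∈ Z) (D : ℕ) (C : ℝ)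
    {C' : ℕ} (hC' : |C| ≤ C') {s : ℕ} (h : GoodFor Z (⟨r, w⟩, ⟨t, fun i => ⟨x i, hx i⟩⟩, D, C') s) :
    OnlyConsequences w x D (C ^ s) (fun _ => s) := by
  have h2 : OnlyConsequences w x D ((C' : ℝ) ^ s) (fun _ => s) := h
  refine only_mono w x D ?_ _ h2
  calc C ^ s ≤ |C ^ s| := le_abs_self _
    _ = |C| ^ s := abs_pow C s
    _ ≤ (C' : ℝ) ^ s := pow_le_pow_left₀ (abs_nonneg C) hC' s

end Pool.Agent.L7h69.MZ
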